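import Pool.Agent.Q131.Snk.No

/-!
MP_b37e0c_co, Q1 (sinkability of spherical triangulations with short edges): disproof.

There is a shortest-path triangulation of the sphere with 15 vertices (26 faces, 39 edges), no pole
on a vertex or an edge, all of whose edges are SHORTER than `π / 2`, which is not sinkable (and not
floatable either: no longitudinal morph moves all vertices to the open northern hemisphere).
The vertices are the normalised vectors
`(7,-30,-21), (22,20,-21), (-29,9,-21), (48,8,-6), (-21,26,-5), (-14,-37,-5), (6,-38,-3),
(30,24,-3), (-37,14,-3), (-5,2,-38), (1,-7,-50), (5,4,-45), (39,-12,29), (-9,39,29), (-28,-26,27)`.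

Definitions: `IsSPT`, `arc`, `skeleton`, `longitude`, `NonPolar` in
`Pool/Agent/Helper479/Sink/Defs.lean` (starting material, written for the sibling problem
MP_bf58c1_co); `IsEmb`, `IsLongMorph`, `Sinkable`, `Floatable`, `north`, `south` in
`Pool/Agent/Q131/Snk/Defs.lean`.
-/

namespace Pool.Agent.Results.MP_b37e0c_co.ShortEdgesUnsinkable

open Pool.Agent.Q131.Snk
open Helper479.Sink (IsSPT skeleton)

/-- Some shortest-path triangulation `v` of the sphere with 15 vertices has neither pole on a vertex
or an edge, has all edges of length (the angle `arccos ⟨v i, v j⟩`) less than `π / 2`, and is neither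
sinkable nor floatable. -/
theorem result : ∃ (G : SimpleGraph (Fin 15)) (v : Fin 15 → Fin 3 → ℝ), IsSPT G v ∧
    north ∉ skeleton G v ∧ south ∉ skeleton G v ∧
    (∀ i j, G.Adj i j → Real.arccos (dotProduct (v i) (v j)) < Real.pi / 2) ∧
    ¬ Sinkable G v ∧ ¬ Floatable G v :=
  ⟨G15, v15, spt15, pole_off rfl rfl, pole_off rfl rfl, fun _ _ h => short h, not_sinkable,
    not_floatable⟩

end Pool.Agent.Results.MP_b37e0c_co.ShortEdgesUnsinkable
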